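import Pool.Agent.Helper78.Dis.Defs

/-!
# The dissonance point as a function of the minimal generators: definitions

`S` is a finite set of natural numbers (the minimal generators), `a` its least element.
-/

set_option autoImplicit false

namespace Pool.Agent.Helper30.Dis

/-- The integer `z` is a sum of elements of `S` (the empty sum `0` included), that is, it lies in
the monoid generated by `S`. -/
def InS (S : Finset ℕ) (z : ℤ) : Prop :=
  ∃ C : Multiset ℕ, (∀ x ∈ C, x ∈ S) ∧ (C.sum : ℤ) = z

/-- The excess of a multiset `B`: the sum of `x - a` over the elements `x` of `B`. -/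
def exc (a : ℕ) (B : Multiset ℕ) : ℤ := (B.map (fun x : ℕ => (x : ℤ) - (a : ℤ))).sum

/-- `PP S a A B`: the multiset `B` of elements of `S` other than `a` has the property that
`y = A + exc B` lies in the monoid, whereas `y - x` does not, for each `x` in `B`. -/
def PP (S : Finset ℕ) (a : ℕ) (A : ℤ) (B : Multiset ℕ) : Prop :=
  (∀ x ∈ B, x ∈ S ∧ x ≠ a) ∧ InS S (A + exc a B) ∧ ∀ x ∈ B, ¬ InS S (A + exc a B - x)

/-- `PPs S a A B`: in addition `y - a` does not lie in the monoid. -/
def PPs (S : Finset ℕ) (a : ℕ) (A : ℤ) (B : Multiset ℕ) : Prop :=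
  PP S a A B ∧ ¬ InS S (A + exc a B - a)

end Pool.Agent.Helper30.Dis
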