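import Pool.Agent.Helper78.Dis.General
import Pool.Agent.Helper30.Dis.FDefs

/-!
# The dissonance point as a function of the minimal generators: proofs
-/

set_option autoImplicit false

namespace Pool.Agent.Helper30.Dis

open Pool.Agent.Helper78.Dis

/-! ### Generators and atoms -/

section gens

variable {S : Finset ℕ}

lemma inS_iff (S : Finset ℕ) (z : ℤ) :
    InS S z ↔ ∃ g ∈ AddSubmonoid.closure (S : Set ℕ), (g : ℤ) = z := by
  constructor
  · rintro ⟨C, hC, rfl⟩
    refine ⟨C.sum, ?_, rfl⟩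
    exact AddSubmonoid.multiset_sum_mem _ _ fun x hx =>
      AddSubmonoid.subset_closure (Finset.mem_coe.2 (hC x hx))
  · rintro ⟨g, hg, rfl⟩
    obtain ⟨C, hC, rfl⟩ := AddSubmonoid.exists_multiset_of_mem_closure hg
    exact ⟨C, fun x hx => Finset.mem_coe.1 (hC x hx), rfl⟩

lemma zero_notMem (hS : ∀ x ∈ S, x ∉ AddSubmonoid.closure ((S.erase x : Finset ℕ) : Set ℕ)) :
    0 ∉ S := fun h => hS 0 h (AddSubmonoid.zero_mem _)

lemma isAt_iff (hS : ∀ x ∈ S, x ∉ AddSubmonoid.closure ((S.erase x : Finset ℕ) : Set ℕ))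
    (x : ℕ) : IsAt (AddSubmonoid.closure (S : Set ℕ)) x ↔ x ∈ S := by
  constructor
  · rintro ⟨h1, h2, h3⟩
    obtain ⟨C, hC, hx⟩ := AddSubmonoid.exists_multiset_of_mem_closure h1
    rcases Multiset.empty_or_exists_mem C with h0 | ⟨s, hs⟩
    · rw [h0] at hx
      exact absurd hx.symm (by simpa using h2)
    · obtain ⟨C', rfl⟩ := Multiset.exists_cons_of_mem hs
      rw [Multiset.sum_cons] at hx
      have hsS : s ∈ S := Finset.mem_coe.1 (hC s hs)
      have hC' : C'.sum ∈ AddSubmonoid.closure (S : Set ℕ) :=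
        AddSubmonoid.multiset_sum_mem _ _ fun y hy =>
          AddSubmonoid.subset_closure (hC y (Multiset.mem_cons_of_mem hy))
      rcases h3 s (AddSubmonoid.subset_closure (Finset.mem_coe.2 hsS)) _ hC' hx with h | h
      · rw [h] at hsS
        exact absurd hsS (zero_notMem hS)
      · rw [h, add_zero] at hx
        rw [← hx]
        exact hsS
  · intro hx
    refine ⟨AddSubmonoid.subset_closure (Finset.mem_coe.2 hx), ?_, ?_⟩
    · rintro rfl
      exact zero_notMem hS hx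
    · intro y hy z hz hyz
      by_contra hcon
      push Not at hcon
      apply hS x hx
      have key : ∀ v ∈ AddSubmonoid.closure (S : Set ℕ), v < x →
          v ∈ AddSubmonoid.closure ((S.erase x : Finset ℕ) : Set ℕ) := by
        intro v hv hvx
        obtain ⟨C, hC, rfl⟩ := AddSubmonoid.exists_multiset_of_mem_closure hv
        refine AddSubmonoid.multiset_sum_mem _ _ fun u hu => ?_
        refine AddSubmonoid.subset_closure (Finset.mem_coe.2 (Finset.mem_erase.2 ⟨?_, ?_⟩))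
        · have := Multiset.single_le_sum (fun _ _ => Nat.zero_le _) u hu
          omega
        · exact Finset.mem_coe.1 (hC u hu)
      have hsum := AddSubmonoid.add_mem _ (key y hy (by omega)) (key z hz (by omega))
      rw [hyz] at hsum
      exact hsum

end gens

lemma exc_eq (a : ℕ) (B : Multiset ℕ) : exc a B = (B.sum : ℤ) - a * B.card := by
  unfold exc
  induction B using Multiset.induction_on with
  | empty => simp
  | cons x B ih =>
    rw [Multiset.map_cons, Multiset.sum_cons, ih, Multiset.sum_cons, Multiset.card_cons]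
    push_cast
    ring

/-! ### Standing assumptions -/

section main

variable {S : Finset ℕ} {a b F : ℕ}

lemma hyp2 (hS : ∀ x ∈ S, x ∉ AddSubmonoid.closure ((S.erase x : Finset ℕ) : Set ℕ))
    (hF : IsGreatest {x | x ∉ AddSubmonoid.closure (S : Set ℕ)} F)
    (ha : IsLeast (S : Set ℕ) a) (hb : IsLeast ((S.erase a : Finset ℕ) : Set ℕ) b) :
    Hyp2 (AddSubmonoid.closure (S : Set ℕ)) a b F := by
  have hFm : ∀ x, F < x → x ∈ AddSubmonoid.closure (S : Set ℕ) := by
    intro x hx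
    by_contra h
    have := hF.2 h
    omega
  have haS : a ∈ S := Finset.mem_coe.1 ha.1
  have hbS : b ∈ S ∧ b ≠ a := by
    have := Finset.mem_erase.1 (Finset.mem_coe.1 hb.1)
    exact ⟨this.2, this.1⟩
  have haA := (isAt_iff hS a).2 haS
  have hbA := (isAt_iff hS b).2 hbS.1
  refine ⟨⟨haA.1, Nat.pos_of_ne_zero haA.2.1, ?_, hFm⟩, haA, hbA, ?_, ?_⟩
  · intro x hx hx0
    obtain ⟨C, hC, rfl⟩ := AddSubmonoid.exists_multiset_of_mem_closure hx
    rcases Multiset.empty_or_exists_mem C with h0 | ⟨s, hs⟩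
    · rw [h0] at hx0
      simp at hx0
    · have h1 := ha.2 (hC s hs)
      exact h1.trans (Multiset.single_le_sum (fun _ _ => Nat.zero_le _) s hs)
  · exact lt_of_le_of_ne (ha.2 (Finset.mem_coe.2 hbS.1)) (Ne.symm hbS.2)
  · intro x hx hxa
    exact hb.2 (Finset.mem_coe.2 (Finset.mem_erase.2 ⟨hxa, (isAt_iff hS x).1 hx⟩))

/-- Membership of an integer through the Apery function. -/
lemma inS_w (hH : Hyp2 (AddSubmonoid.closure (S : Set ℕ)) a b F) (y : ℤ) :
    InS S y ↔ (w (AddSubmonoid.closure (S : Set ℕ)) a y : ℤ) ≤ y := by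
  rw [inS_iff]
  constructor
  · rintro ⟨g, hg, rfl⟩
    exact_mod_cast (mem_iff hH.toHyp (by simp)).1 hg
  · intro h
    have h0 : 0 ≤ y := le_trans (Int.natCast_nonneg _) h
    lift y to ℕ using h0
    exact ⟨y, (mem_iff hH.toHyp (z := (y : ℤ)) (by simp)).2 (by exact_mod_cast h), rfl⟩

lemma in_iff (hH : Hyp2 (AddSubmonoid.closure (S : Set ℕ)) a b F) {N : ℕ} {A : ℤ}
    (hA : (a : ℤ) ∣ A + N) (B : Multiset ℕ) :
    InS S (A + exc a B) ↔ ht (AddSubmonoid.closure (S : Set ℕ)) a N B ≤ A := by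
  rw [inS_w hH, exc_eq]
  have e : w (AddSubmonoid.closure (S : Set ℕ)) a (A + ((B.sum : ℤ) - a * B.card))
      = w (AddSubmonoid.closure (S : Set ℕ)) a ((B.sum : ℤ) - N) := by
    apply w_congr
    have e1 : A + ((B.sum : ℤ) - a * B.card) - ((B.sum : ℤ) - N) = (A + N) - a * B.card := by
      ring
    rw [e1]
    exact dvd_sub hA (dvd_mul_right _ _)
  rw [e]
  unfold ht
  constructor <;> intro h <;> linarith

lemma not_in_erase_iff (hH : Hyp2 (AddSubmonoid.closure (S : Set ℕ)) a b F) {N : ℕ} {A : ℤ}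
    (hA : (a : ℤ) ∣ A + N) {B : Multiset ℕ} {x : ℕ} (hx : x ∈ B) :
    ¬ InS S (A + exc a B - x) ↔ A ≤ ht (AddSubmonoid.closure (S : Set ℕ)) a N (B.erase x) := by
  have ec : (B.card : ℤ) = (B.erase x).card + 1 := by
    have := Multiset.card_erase_add_one hx
    rw [← this]; push_cast; ring
  have es : (B.sum : ℤ) = x + (B.erase x).sum := by
    have := Multiset.sum_erase hx
    rw [← this]; push_cast; ring
  have e : A + exc a B - x = (A - a) + exc a (B.erase x) := by
    rw [exc_eq, exc_eq, ec, es]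
    ring
  have hA' : (a : ℤ) ∣ (A - a) + N := by
    have e2 : (A - a) + N = (A + N) - a := by ring
    rw [e2]
    exact dvd_sub hA (dvd_refl _)
  rw [e, in_iff hH hA' (B.erase x), not_le]
  constructor
  · intro h
    refine le_of_lt_of_dvd (a := (a : ℤ)) ?_ h
    have := dvd_sub hA (dvd_ht hH.toHyp N (B.erase x))
    have e3 : A + N - (ht (AddSubmonoid.closure (S : Set ℕ)) a N (B.erase x) + N)
      = A - ht (AddSubmonoid.closure (S : Set ℕ)) a N (B.erase x) := by ring
    rwa [e3] at this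
  · intro h
    have := apos hH
    linarith

lemma not_in_a_iff (hH : Hyp2 (AddSubmonoid.closure (S : Set ℕ)) a b F) {N : ℕ} {A : ℤ}
    (hA : (a : ℤ) ∣ A + N) (B : Multiset ℕ) :
    ¬ InS S (A + exc a B - a) ↔ A ≤ ht (AddSubmonoid.closure (S : Set ℕ)) a N B := by
  have e : A + exc a B - a = (A - a) + exc a B := by ring
  have hA' : (a : ℤ) ∣ (A - a) + N := by
    have e2 : (A - a) + N = (A + N) - a := by ring
    rw [e2]
    exact dvd_sub hA (dvd_refl _)
  rw [e, in_iff hH hA' B, not_le]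
  constructor
  · intro h
    refine le_of_lt_of_dvd (a := (a : ℤ)) ?_ h
    have := dvd_sub hA (dvd_ht hH.toHyp N B)
    have e3 : A + N - (ht (AddSubmonoid.closure (S : Set ℕ)) a N B + N)
      = A - ht (AddSubmonoid.closure (S : Set ℕ)) a N B := by ring
    rwa [e3] at this
  · intro h
    have := apos hH
    linarith

lemma pp_iff (hS : ∀ x ∈ S, x ∉ AddSubmonoid.closure ((S.erase x : Finset ℕ) : Set ℕ))
    (hH : Hyp2 (AddSubmonoid.closure (S : Set ℕ)) a b F) {N : ℕ} {A : ℤ}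
    (hA : (a : ℤ) ∣ A + N) (B : Multiset ℕ) :
    PP S a A B ↔ (∀ x ∈ B, IsAt (AddSubmonoid.closure (S : Set ℕ)) x ∧ x ≠ a) ∧
      ht (AddSubmonoid.closure (S : Set ℕ)) a N B ≤ A ∧
      ∀ x ∈ B, A ≤ ht (AddSubmonoid.closure (S : Set ℕ)) a N (B.erase x) := by
  unfold PP
  rw [in_iff hH hA B]
  constructor
  · rintro ⟨h1, h2, h3⟩
    exact ⟨fun x hx => ⟨(isAt_iff hS x).2 (h1 x hx).1, (h1 x hx).2⟩, h2,
      fun x hx => (not_in_erase_iff hH hA hx).1 (h3 x hx)⟩
  · rintro ⟨h1, h2, h3⟩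
    exact ⟨fun x hx => ⟨(isAt_iff hS x).1 (h1 x hx).1, (h1 x hx).2⟩, h2,
      fun x hx => (not_in_erase_iff hH hA hx).2 (h3 x hx)⟩

lemma pps_iff (hS : ∀ x ∈ S, x ∉ AddSubmonoid.closure ((S.erase x : Finset ℕ) : Set ℕ))
    (hH : Hyp2 (AddSubmonoid.closure (S : Set ℕ)) a b F) {N : ℕ} {A : ℤ}
    (hA : (a : ℤ) ∣ A + N) (B : Multiset ℕ) :
    PPs S a A B ↔ Descent (AddSubmonoid.closure (S : Set ℕ)) a N B ∧
      ht (AddSubmonoid.closure (S : Set ℕ)) a N B = A := by
  unfold PPs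
  rw [pp_iff hS hH hA B, not_in_a_iff hH hA B]
  constructor
  · rintro ⟨⟨h1, h2, h3⟩, h4⟩
    exact ⟨⟨h1, fun x hx => h2.trans (h3 x hx)⟩, le_antisymm h2 h4⟩
  · rintro ⟨⟨h1, h2⟩, h3⟩
    exact ⟨⟨h1, h3.le, fun x hx => h3.ge.trans (h2 x hx)⟩, h3.ge⟩

/-- The greatest number in the description is the top height. -/
lemma top_greatest (hS : ∀ x ∈ S, x ∉ AddSubmonoid.closure ((S.erase x : Finset ℕ) : Set ℕ))
    (hH : Hyp2 (AddSubmonoid.closure (S : Set ℕ)) a b F) (r : ℕ) :
    IsGreatest {A : ℤ | (a : ℤ) ∣ A + r ∧ ∃ B, PPs S a A B}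
      (top (AddSubmonoid.closure (S : Set ℕ)) a r) := by
  constructor
  · refine ⟨dvd_top hH r, ?_⟩
    obtain ⟨B, hB, hBt⟩ := top_mem hH r
    exact ⟨B, (pps_iff hS hH (dvd_top hH r) B).2 ⟨hB, hBt⟩⟩
  · rintro A ⟨hA, B, hB⟩
    obtain ⟨h1, h2⟩ := (pps_iff hS hH hA B).1 hB
    rw [← h2]
    exact le_top hH h1

/-- The set of numbers whose greatest element is `τ`. -/
def TT (S : Finset ℕ) (a : ℕ) (A : ℤ) : Set ℤ :=
  {t | ∃ B, PP S a (A + a) B ∧ t = (B.card : ℤ) - 1} ∪
    {t | 0 ≤ t ∧ (∀ B, PPs S a A B → t < B.card) ∧ ∀ B, PP S a A B → t ≠ B.card}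

lemma card_le_of_pp (hS : ∀ x ∈ S, x ∉ AddSubmonoid.closure ((S.erase x : Finset ℕ) : Set ℕ))
    (hH : Hyp2 (AddSubmonoid.closure (S : Set ℕ)) a b F) {r : ℕ} {B : Multiset ℕ}
    (hB : PP S a (top (AddSubmonoid.closure (S : Set ℕ)) a r + a) B) :
    B.card ≤ F / (b - a) + 1 := by
  have hA : (a : ℤ) ∣ (top (AddSubmonoid.closure (S : Set ℕ)) a r + a) + r := by
    have e : (top (AddSubmonoid.closure (S : Set ℕ)) a r + a) + r
      = (top (AddSubmonoid.closure (S : Set ℕ)) a r + r) + a := by ring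
    rw [e]
    exact dvd_add (dvd_top hH r) (dvd_refl _)
  obtain ⟨h1, -, h3⟩ := (pp_iff hS hH hA B).1 hB
  rcases Multiset.empty_or_exists_mem B with h0 | ⟨x, hx⟩
  · rw [h0]; simp
  · have h4 := h3 x hx
    have h5 := ht_le hH r (B.erase x) (others_erase h1 x)
    have h6 := top_nonneg hH r
    have hab := hH.hab
    have h7 : ((b : ℤ) - a) * (B.erase x).card ≤ F := by linarith
    have h8 : ((b - a : ℕ) : ℤ) = (b : ℤ) - a := by
      push_cast [Nat.cast_sub hab.le]; ring
    rw [← h8] at h7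
    have h9 : (b - a) * (B.erase x).card ≤ F := by exact_mod_cast h7
    have h10 : (B.erase x).card ≤ F / (b - a) := by
      rw [Nat.le_div_iff_mul_le (by omega), mul_comm]
      exact h9
    have := Multiset.card_erase_add_one hx
    omega

lemma exists_tau (hS : ∀ x ∈ S, x ∉ AddSubmonoid.closure ((S.erase x : Finset ℕ) : Set ℕ))
    (hH : Hyp2 (AddSubmonoid.closure (S : Set ℕ)) a b F) (r : ℕ) :
    ∃ t, IsGreatest (TT S a (top (AddSubmonoid.closure (S : Set ℕ)) a r)) t := by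
  have hA : (a : ℤ) ∣ (top (AddSubmonoid.closure (S : Set ℕ)) a r + a) + r := by
    have e : (top (AddSubmonoid.closure (S : Set ℕ)) a r + a) + r
      = (top (AddSubmonoid.closure (S : Set ℕ)) a r + r) + a := by ring
    rw [e]
    exact dvd_add (dvd_top hH r) (dvd_refl _)
  have hne : (TT S a (top (AddSubmonoid.closure (S : Set ℕ)) a r)).Nonempty := by
    refine ⟨-1, Or.inl ⟨0, ?_, by simp⟩⟩
    rw [pp_iff hS hH hA]
    refine ⟨by simp, ?_, by simp⟩
    have h1 := le_top hH (descent_nil (Γ := AddSubmonoid.closure (S : Set ℕ)) (a := a) r)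
    have h2 := apos hH
    linarith
  have hbd : BddAbove (TT S a (top (AddSubmonoid.closure (S : Set ℕ)) a r)) := by
    obtain ⟨⟨h1, B₀, hB₀⟩, -⟩ := top_greatest hS hH r
    refine ⟨((F / (b - a) : ℕ) : ℤ) + B₀.card, ?_⟩
    rintro t (⟨B, hB, rfl⟩ | ⟨h2, h3, h4⟩)
    · have h5 := card_le_of_pp hS hH hB
      have h6 : (B.card : ℤ) ≤ ((F / (b - a) : ℕ) : ℤ) + 1 := by exact_mod_cast h5
      have h7 : (0 : ℤ) ≤ B₀.card := Int.natCast_nonneg _
      linarith
    · have h5 := h3 B₀ hB₀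
      have h6 : (0 : ℤ) ≤ ((F / (b - a) : ℕ) : ℤ) := Int.natCast_nonneg _
      linarith
  exact ⟨_, Int.csSup_mem hne hbd, fun t ht => le_csSup hbd ht⟩

/-- An element of `TT` gives a dissonance. -/
lemma dis_of_tt (hS : ∀ x ∈ S, x ∉ AddSubmonoid.closure ((S.erase x : Finset ℕ) : Set ℕ))
    (hH : Hyp2 (AddSubmonoid.closure (S : Set ℕ)) a b F) {N : ℕ} {t : ℤ}
    (ht : t ∈ TT S a (top (AddSubmonoid.closure (S : Set ℕ)) a N))
    (hN : (N : ℤ) = a * t - top (AddSubmonoid.closure (S : Set ℕ)) a N) :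
    omega (AddSubmonoid.closure (S : Set ℕ)) N ≠ lin (AddSubmonoid.closure (S : Set ℕ)) a N := by
  have ha := apos hH
  have hlin := lin_spec hH N
  have htl : t = lin (AddSubmonoid.closure (S : Set ℕ)) a N := by
    have : (a : ℤ) * t = a * lin (AddSubmonoid.closure (S : Set ℕ)) a N := by linarith
    exact mul_left_cancel₀ ha.ne' this
  rcases ht with ⟨B, hB, hBt⟩ | ⟨h0, h1, h2⟩
  · have hA : (a : ℤ) ∣ (top (AddSubmonoid.closure (S : Set ℕ)) a N + a) + N := by
      have e : (top (AddSubmonoid.closure (S : Set ℕ)) a N + a) + N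
        = (top (AddSubmonoid.closure (S : Set ℕ)) a N + N) + a := by ring
      rw [e]
      exact dvd_add (dvd_top hH N) (dvd_refl _)
    obtain ⟨k1, k2, k3⟩ := (pp_iff hS hH hA B).1 hB
    apply ne_of_gt
    rw [lin_lt_omega_iff hH]
    have e : (a : ℤ) * B.card - N = top (AddSubmonoid.closure (S : Set ℕ)) a N + a := by
      rw [hN, hBt]; ring
    refine ⟨B, k1, ?_, by rw [e]; linarith, ?_⟩
    · by_contra hcon
      push Not at hcon
      have hd : Descent (AddSubmonoid.closure (S : Set ℕ)) a N B :=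
        ⟨k1, fun x hx => k2.trans (k3 x hx)⟩
      have := le_top hH hd
      linarith
    · intro x hx
      rw [e]
      exact k3 x hx
  · intro hω
    obtain ⟨B, hB, h⟩ := (omega_greatest hH N).1
    rw [hω] at h
    have hA := dvd_top hH N
    rcases h with h | h
    · refine h2 B ?_ (by rw [htl, h])
      rw [pp_iff hS hH hA]
      refine ⟨hB.1.1, le_top hH hB.1, ?_⟩
      intro x hx
      have h3 := hB.2 x hx
      have h4 : (a : ℤ) * B.card = a * lin (AddSubmonoid.closure (S : Set ℕ)) a N := by rw [h]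
      linarith
    · have h3 : Helper78.Dis.ht (AddSubmonoid.closure (S : Set ℕ)) a N B
          = top (AddSubmonoid.closure (S : Set ℕ)) a N := by linarith
      have h4 := h1 B ((pps_iff hS hH hA B).2 ⟨hB.1, h3⟩)
      have h5 := (le_omega_of_adm hH hB).1
      rw [hω] at h5
      have h6 : (B.card : ℤ) ≤ lin (AddSubmonoid.closure (S : Set ℕ)) a N := by exact_mod_cast h5
      linarith

/-- Every dissonance is below one that comes from an element of `TT`. -/
lemma tt_of_dis (hS : ∀ x ∈ S, x ∉ AddSubmonoid.closure ((S.erase x : Finset ℕ) : Set ℕ))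
    (hH : Hyp2 (AddSubmonoid.closure (S : Set ℕ)) a b F) {N : ℕ}
    (h : omega (AddSubmonoid.closure (S : Set ℕ)) N
      ≠ lin (AddSubmonoid.closure (S : Set ℕ)) a N) :
    ∃ t ∈ TT S a (top (AddSubmonoid.closure (S : Set ℕ)) a N),
      (N : ℤ) ≤ a * t - top (AddSubmonoid.closure (S : Set ℕ)) a N := by
  have ha := apos hH
  have hlin := lin_spec hH N
  rcases lt_or_gt_of_ne h with h | h
  · refine ⟨lin (AddSubmonoid.closure (S : Set ℕ)) a N, Or.inr ⟨Int.natCast_nonneg _, ?_, ?_⟩,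
      by linarith⟩
    · intro B hB
      obtain ⟨k1, k2⟩ := (pps_iff hS hH (dvd_top hH N) B).1 hB
      by_contra hcon
      push Not at hcon
      have h1 : (a : ℤ) * B.card ≤ a * lin (AddSubmonoid.closure (S : Set ℕ)) a N :=
        mul_le_mul_of_nonneg_left hcon ha.le
      have hAdm : Adm (AddSubmonoid.closure (S : Set ℕ)) a N B := by
        refine ⟨k1, fun x hx => ?_⟩
        have := k1.2 x hx
        linarith
      have := ((omega_lt_lin_iff hH N).1 h B hAdm).2
      linarith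
    · intro B hB hcard
      obtain ⟨k1, k2, k3⟩ := (pp_iff hS hH (dvd_top hH N) B).1 hB
      have h1 : (a : ℤ) * B.card = a * lin (AddSubmonoid.closure (S : Set ℕ)) a N := by
        rw [hcard]
      have hAdm : Adm (AddSubmonoid.closure (S : Set ℕ)) a N B := by
        refine ⟨⟨k1, fun x hx => k2.trans (k3 x hx)⟩, fun x hx => ?_⟩
        have := k3 x hx
        linarith
      have := ((omega_lt_lin_iff hH N).1 h B hAdm).1
      linarith
  · obtain ⟨B, k1, k2, k3, k4⟩ := (lin_lt_omega_iff hH N).1 h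
    have hge : top (AddSubmonoid.closure (S : Set ℕ)) a N + a ≤ (a : ℤ) * B.card - N := by
      refine le_of_lt_of_dvd (a := (a : ℤ)) ?_ (by linarith)
      have h1 := dvd_V_top hH N B.card
      have h2 : (a : ℤ) ∣ -((a : ℤ) * B.card - N
          - top (AddSubmonoid.closure (S : Set ℕ)) a N) + a :=
        dvd_add ((dvd_neg).2 h1) (dvd_refl _)
      have e : -((a : ℤ) * B.card - N - top (AddSubmonoid.closure (S : Set ℕ)) a N) + a
        = top (AddSubmonoid.closure (S : Set ℕ)) a N + a - ((a : ℤ) * B.card - N) := by ring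
      rwa [e] at h2
    have hA : (a : ℤ) ∣ (top (AddSubmonoid.closure (S : Set ℕ)) a N + a) + N := by
      have e : (top (AddSubmonoid.closure (S : Set ℕ)) a N + a) + N
        = (top (AddSubmonoid.closure (S : Set ℕ)) a N + N) + a := by ring
      rw [e]
      exact dvd_add (dvd_top hH N) (dvd_refl _)
    refine ⟨(B.card : ℤ) - 1, Or.inl ⟨B, ?_, rfl⟩, by linarith⟩
    rw [pp_iff hS hH hA]
    exact ⟨k1, by linarith, fun x hx => hge.trans (k4 x hx)⟩

/-- The dissonance point is the greatest number in the explicit list. -/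
theorem isDis_formula
    (hS : ∀ x ∈ S, x ∉ AddSubmonoid.closure ((S.erase x : Finset ℕ) : Set ℕ))
    (hH : Hyp2 (AddSubmonoid.closure (S : Set ℕ)) a b F) (τ : ℕ → ℤ)
    (hτ : ∀ r, IsGreatest (TT S a (top (AddSubmonoid.closure (S : Set ℕ)) a r)) (τ r)) :
    ∃ D, IsGreatest {n : ℕ | n ∈ AddSubmonoid.closure (S : Set ℕ) ∧
      ∃ r < a, (n : ℤ) = a * τ r - top (AddSubmonoid.closure (S : Set ℕ)) a r} D ∧
      D ≤ a * (F / (b - a)) ∧ IsDis (AddSubmonoid.closure (S : Set ℕ)) D ∧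
      ∀ D', IsDis (AddSubmonoid.closure (S : Set ℕ)) D' → D' = D := by
  have ha := apos hH
  have hsub : ∀ n : ℕ, (n ∈ AddSubmonoid.closure (S : Set ℕ) ∧
      ∃ r < a, (n : ℤ) = a * τ r - top (AddSubmonoid.closure (S : Set ℕ)) a r) →
      n ∈ AddSubmonoid.closure (S : Set ℕ) ∧ omega (AddSubmonoid.closure (S : Set ℕ)) n
        ≠ lin (AddSubmonoid.closure (S : Set ℕ)) a n := by
    rintro n ⟨h1, r, -, h2⟩
    refine ⟨h1, ?_⟩
    have hcg : (a : ℤ) ∣ (r : ℤ) - n := by
      have h3 := dvd_top hH r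
      have e : (r : ℤ) - n = (top (AddSubmonoid.closure (S : Set ℕ)) a r + r) - a * τ r := by
        rw [h2]; ring
      rw [e]
      exact dvd_sub h3 (dvd_mul_right _ _)
    have ht := top_congr (Γ := AddSubmonoid.closure (S : Set ℕ)) hcg
    have h4 := (hτ r).1
    rw [ht] at h4 h2
    exact dis_of_tt hS hH h4 h2
  have hdom : ∀ N : ℕ, N ∈ AddSubmonoid.closure (S : Set ℕ) ∧
      omega (AddSubmonoid.closure (S : Set ℕ)) N ≠ lin (AddSubmonoid.closure (S : Set ℕ)) a N →
      ∃ n : ℕ, N ≤ n ∧ n ∈ AddSubmonoid.closure (S : Set ℕ) ∧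
      ∃ r < a, (n : ℤ) = a * τ r - top (AddSubmonoid.closure (S : Set ℕ)) a r := by
    rintro N ⟨h1, h2⟩
    obtain ⟨t, ht, hN⟩ := tt_of_dis hS hH h2
    have hcg : (a : ℤ) ∣ (N : ℤ) - ((N % a : ℕ) : ℤ) := by
      refine ⟨(N / a : ℕ), ?_⟩
      have := Nat.mod_add_div N a
      have h3 : ((N % a : ℕ) : ℤ) + a * ((N / a : ℕ) : ℤ) = N := by exact_mod_cast this
      linarith
    have htc := top_congr (Γ := AddSubmonoid.closure (S : Set ℕ)) hcg
    rw [htc] at ht hN
    have hle := (hτ (N % a)).2 ht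
    have h3 : (N : ℤ) ≤ a * τ (N % a) - top (AddSubmonoid.closure (S : Set ℕ)) a (N % a) := by
      have := mul_le_mul_of_nonneg_left hle ha.le
      linarith
    obtain ⟨n, hn⟩ : ∃ n : ℕ, (n : ℤ)
        = a * τ (N % a) - top (AddSubmonoid.closure (S : Set ℕ)) a (N % a) :=
      ⟨_, Int.toNat_of_nonneg (le_trans (Int.natCast_nonneg _) h3)⟩
    have hNn : N ≤ n := by
      rw [← hn] at h3
      exact_mod_cast h3
    refine ⟨n, hNn, ?_, N % a, Nat.mod_lt _ hH.ha0, hn⟩
    have h4 : (a : ℤ) ∣ (n : ℤ) - N := by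
      have h5 := dvd_top hH N
      rw [htc] at h5
      have e : (n : ℤ) - N = a * τ (N % a)
          - (top (AddSubmonoid.closure (S : Set ℕ)) a (N % a) + N) := by rw [hn]; ring
      rw [e]
      exact dvd_sub (dvd_mul_right _ _) h5
    obtain ⟨m, hm⟩ := h4
    have hm0 : 0 ≤ m := by
      have : (0 : ℤ) ≤ (a : ℤ) * m := by
        rw [← hm]
        have : (N : ℤ) ≤ n := by exact_mod_cast hNn
        linarith
      exact nonneg_of_mul_nonneg_right this ha
    lift m to ℕ using hm0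
    have e : n = N + a * m := by
      have : (n : ℤ) = N + a * m := by linarith
      exact_mod_cast this
    rw [e]
    exact AddSubmonoid.add_mem _ h1 (mul_mem hH.toHyp m)
  have hbd : ∀ N, N ∈ AddSubmonoid.closure (S : Set ℕ) ∧
      omega (AddSubmonoid.closure (S : Set ℕ)) N ≠ lin (AddSubmonoid.closure (S : Set ℕ)) a N →
      N ≤ a * (F / (b - a)) := by
    rintro N ⟨-, h⟩
    by_contra hcon
    push Not at hcon
    exact h (omega_eq_lin hH hcon)
  obtain ⟨N₁, hN₁⟩ := exists_dissonance hH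
  have hfin : {N | N ∈ AddSubmonoid.closure (S : Set ℕ) ∧
      omega (AddSubmonoid.closure (S : Set ℕ)) N
        ≠ lin (AddSubmonoid.closure (S : Set ℕ)) a N}.Finite :=
    (Set.finite_Iic (a * (F / (b - a)))).subset hbd
  obtain ⟨D, hD⟩ := Set.exists_max_image _ id hfin ⟨N₁, hN₁⟩
  have hDG : IsGreatest {N | N ∈ AddSubmonoid.closure (S : Set ℕ) ∧
      omega (AddSubmonoid.closure (S : Set ℕ)) N
        ≠ lin (AddSubmonoid.closure (S : Set ℕ)) a N} D := ⟨hD.1, fun N hN => hD.2 N hN⟩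
  refine ⟨D, ⟨?_, ?_⟩, hbd D hD.1, ⟨lin (AddSubmonoid.closure (S : Set ℕ)) a,
    lin_quasilinear hH, ⟨a * (F / (b - a)) + 1,
      fun n hn => omega_eq_lin hH (Nat.lt_of_succ_le hn)⟩, hDG⟩, ?_⟩
  · obtain ⟨n, h1, h2⟩ := hdom D hD.1
    have h3 : n ≤ D := hDG.2 (hsub n h2)
    have h4 : n = D := le_antisymm h3 h1
    rw [h4] at h2
    exact h2
  · intro n hn
    exact hDG.2 (hsub n hn)
  · rintro D' ⟨f, hf, ⟨n₀, hn₀⟩, hD'⟩
    have hfl : f = lin (AddSubmonoid.closure (S : Set ℕ)) a := by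
      apply IsQuasilinear.unique hf (lin_quasilinear hH) (n₀ := max n₀ (a * (F / (b - a)) + 1))
      intro n hn
      rw [← hn₀ n (le_of_max_le_left hn),
        omega_eq_lin hH (Nat.lt_of_succ_le (le_of_max_le_right hn))]
    rw [hfl] at hD'
    exact hD'.unique hDG

end main

end Pool.Agent.Helper30.Dis
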