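import Pool.Agent.Helper30.Dis.Formula

/-!
# Reduction of the Frobenius number to the dissonance point, part 1: the monoid `Γ_q`
-/

set_option autoImplicit false

namespace Pool.Agent.Helper30.Dis

open Pool.Agent.Helper78.Dis

/-! ### Generalities -/

lemma InS.add {S : Finset ℕ} {x y : ℤ} (hx : InS S x) (hy : InS S y) : InS S (x + y) := by
  obtain ⟨C, hC, rfl⟩ := hx
  obtain ⟨C', hC', rfl⟩ := hy
  refine ⟨C + C', ?_, by push_cast [Multiset.sum_add]; ring⟩
  intro x hx
  rcases Multiset.mem_add.1 hx with h | h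
  · exact hC x h
  · exact hC' x h

lemma inS_zero (S : Finset ℕ) : InS S 0 := ⟨0, by simp, by simp⟩

lemma InS.nonneg {S : Finset ℕ} {x : ℤ} (hx : InS S x) : 0 ≤ x := by
  obtain ⟨C, -, rfl⟩ := hx
  exact Int.natCast_nonneg _

lemma InS.mul {S : Finset ℕ} {x : ℤ} (hx : InS S x) (k : ℕ) : InS S (k * x) := by
  induction k with
  | zero => simpa using inS_zero S
  | succ k ih =>
    have := ih.add hx
    have e : ((k + 1 : ℕ) : ℤ) * x = k * x + x := by push_cast; ring
    rw [e]
    exact this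

/-- The sum of a multiset of elements `p` and multiples `q u`. -/
lemma dec_sum {T : Set ℕ} {p q : ℕ} (C : Multiset ℕ)
    (hC : ∀ x ∈ C, x = p ∨ ∃ u ∈ T, x = q * u) :
    ∃ c σ : ℕ, C.sum = c * p + q * σ ∧ σ ∈ AddSubmonoid.closure T := by
  induction C using Multiset.induction_on with
  | empty => exact ⟨0, 0, by simp, AddSubmonoid.zero_mem _⟩
  | cons x C ih =>
    obtain ⟨c, σ, h1, h2⟩ := ih fun y hy => hC y (Multiset.mem_cons_of_mem hy)
    rcases hC x (Multiset.mem_cons_self x C) with h | ⟨u, hu, h⟩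
    · refine ⟨c + 1, σ, ?_, h2⟩
      rw [Multiset.sum_cons, h1, h]
      ring
    · refine ⟨c, u + σ, ?_, AddSubmonoid.add_mem _ (AddSubmonoid.subset_closure hu) h2⟩
      rw [Multiset.sum_cons, h1, h]
      ring

/-- Base data. -/
structure Base (S₀ : Finset ℕ) (s f m q : ℕ) : Prop where
  h0 : ∀ x ∈ S₀, x ∉ AddSubmonoid.closure ((S₀.erase x : Finset ℕ) : Set ℕ)
  hs : IsLeast (S₀ : Set ℕ) s
  hf : IsGreatest {x | x ∉ AddSubmonoid.closure (S₀ : Set ℕ)} f
  hm : ∀ x ∈ S₀, x ≤ m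
  hq : f + 4 * s + m + 1 ≤ q * s

/-- The generators of the larger monoid. -/
def gq (S₀ : Finset ℕ) (s q : ℕ) : Finset ℕ := insert (q * s + 1) (S₀.image fun x => q * x)

section base

variable {S₀ : Finset ℕ} {s f m q : ℕ}

lemma Base.s_mem (h : Base S₀ s f m q) : s ∈ S₀ := Finset.mem_coe.1 h.hs.1

lemma Base.s_pos (h : Base S₀ s f m q) : 0 < s := by
  rcases Nat.eq_zero_or_pos s with h1 | h1
  · exact absurd (h1 ▸ h.s_mem) (zero_notMem h.h0)
  · exact h1

lemma Base.sm (h : Base S₀ s f m q) : s ≤ m := h.hm s h.s_mem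

lemma Base.f_pos (h : Base S₀ s f m q) : 0 < f := by
  rcases Nat.eq_zero_or_pos f with h1 | h1
  · exfalso
    have := h.hf.1
    rw [h1] at this
    exact this (AddSubmonoid.zero_mem _)
  · exact h1

lemma Base.q5 (h : Base S₀ s f m q) : 5 ≤ q := by
  by_contra hcon
  push Not at hcon
  have h1 := h.hq
  have h2 := h.sm
  have h3 := h.s_pos
  have h4 : q * s ≤ 4 * s := Nat.mul_le_mul_right s (by omega)
  omega

/-- above `f` everything lies in the base monoid -/
lemma Base.inS_of_lt (h : Base S₀ s f m q) {x : ℤ} (hx : (f : ℤ) < x) : InS S₀ x := by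
  have h0 : 0 ≤ x := le_trans (Int.natCast_nonneg _) hx.le
  lift x to ℕ using h0
  rw [inS_iff]
  refine ⟨x, ?_, rfl⟩
  by_contra hcon
  have := h.hf.2 hcon
  have h1 : f < x := by exact_mod_cast hx
  omega

lemma Base.not_inS_f (h : Base S₀ s f m q) : ¬ InS S₀ (f : ℤ) := by
  rw [inS_iff]
  rintro ⟨g, hg, hgf⟩
  have : g = f := by exact_mod_cast hgf
  rw [this] at hg
  exact h.hf.1 hg

lemma Base.le_of_not (h : Base S₀ s f m q) {x : ℤ} (hx : ¬ InS S₀ x) : x ≤ f := by
  by_contra hcon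
  push Not at hcon
  exact hx (h.inS_of_lt hcon)

lemma mem_gq {x : ℕ} : x ∈ gq S₀ s q ↔ x = q * s + 1 ∨ ∃ u ∈ S₀, x = q * u := by
  unfold gq
  rw [Finset.mem_insert, Finset.mem_image]
  constructor
  · rintro (h | ⟨u, hu, h⟩)
    · exact Or.inl h
    · exact Or.inr ⟨u, hu, h.symm⟩
  · rintro (h | ⟨u, hu, h⟩)
    · exact Or.inl h
    · exact Or.inr ⟨u, hu, h.symm⟩

/-- every integer is `q x + i p` with `0 ≤ i < q`, `p = q s + 1` -/
lemma Base.rep (h : Base S₀ s f m q) (z : ℤ) :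
    ∃ x i : ℤ, 0 ≤ i ∧ i < q ∧ z = q * x + i * (q * s + 1) := by
  have hq := h.q5
  have hq0 : (0 : ℤ) < q := by exact_mod_cast (by omega : 0 < q)
  refine ⟨z / q - (z % q) * s, z % q, Int.emod_nonneg _ hq0.ne', Int.emod_lt_of_pos _ hq0, ?_⟩
  have := Int.emod_add_mul_ediv z q
  linear_combination -this

/-- membership in the larger monoid -/
lemma Base.mem_iff (h : Base S₀ s f m q) {x i : ℤ} (hi0 : 0 ≤ i) (hi : i < q) :
    InS (gq S₀ s q) (q * x + i * (q * s + 1)) ↔ InS S₀ x := by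
  have hq := h.q5
  have hq0 : (0 : ℤ) < q := by exact_mod_cast (by omega : 0 < q)
  constructor
  · rintro ⟨C, hC, hsum⟩
    obtain ⟨c, σ, h1, h2⟩ := dec_sum (T := (S₀ : Set ℕ)) (p := q * s + 1) (q := q) C (by
      intro x hx
      rcases mem_gq.1 (hC x hx) with h3 | ⟨u, hu, h3⟩
      · exact Or.inl h3
      · exact Or.inr ⟨u, Finset.mem_coe.2 hu, h3⟩)
    have h3 : (c : ℤ) * (q * s + 1) + q * σ = q * x + i * (q * s + 1) := by
      rw [← hsum, h1]
      push_cast
      ring
    -- `c - i` is a multiple of `q`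
    have h4 : (q : ℤ) ∣ c - i := by
      refine ⟨x - σ - (c - i) * s, ?_⟩
      linear_combination h3
    obtain ⟨k, hk⟩ := h4
    have hk0 : 0 ≤ k := by
      by_contra hcon
      push Not at hcon
      have h5 : (q : ℤ) * k ≤ q * (-1) := mul_le_mul_of_nonneg_left (by omega) hq0.le
      have h6 : (0 : ℤ) ≤ c := Int.natCast_nonneg _
      linarith
    have h7 : x = σ + k * (q * s + 1) := by
      have h8 : (q : ℤ) * x = q * (σ + k * (q * s + 1)) := by
        linear_combination -h3 + (q * s + 1) * hk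
      exact mul_left_cancel₀ hq0.ne' h8
    rw [h7]
    lift k to ℕ using hk0
    refine InS.add ?_ (InS.mul ?_ k)
    · rw [inS_iff]
      exact ⟨σ, h2, rfl⟩
    · apply h.inS_of_lt
      have h9 := h.hq
      have h10 : ((f + 4 * s + m + 1 : ℕ) : ℤ) ≤ ((q * s : ℕ) : ℤ) := by exact_mod_cast h9
      push_cast at h10
      have h11 : (0 : ℤ) ≤ s := Int.natCast_nonneg _
      have h12 : (0 : ℤ) ≤ m := Int.natCast_nonneg _
      linarith
  · rintro ⟨C, hC, rfl⟩
    lift i to ℕ using hi0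
    refine ⟨C.map (fun u => q * u) + Multiset.replicate i (q * s + 1), ?_, ?_⟩
    · intro y hy
      rw [mem_gq]
      rcases Multiset.mem_add.1 hy with h1 | h1
      · obtain ⟨u, hu, rfl⟩ := Multiset.mem_map.1 h1
        exact Or.inr ⟨u, hC u hu, rfl⟩
      · exact Or.inl (Multiset.eq_of_mem_replicate h1)
    · rw [Multiset.sum_add, Multiset.sum_replicate, Multiset.sum_map_mul_left]
      push_cast
      simp

lemma Base.mem_iff' (h : Base S₀ s f m q) {x i z : ℤ} (hi0 : 0 ≤ i) (hi : i < q)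
    (hz : z = q * x + i * (q * s + 1)) : InS (gq S₀ s q) z ↔ InS S₀ x := by
  rw [hz]
  exact h.mem_iff hi0 hi

lemma Base.minimal (h : Base S₀ s f m q) : ∀ x ∈ gq S₀ s q,
    x ∉ AddSubmonoid.closure (((gq S₀ s q).erase x : Finset ℕ) : Set ℕ) := by
  have hq := h.q5
  have hp : m < q * s + 1 := by
    have := h.hq
    omega
  intro x hx hmem
  obtain ⟨C, hC, hsum⟩ := AddSubmonoid.exists_multiset_of_mem_closure hmem
  rcases mem_gq.1 hx with h1 | ⟨u, hu, h1⟩
  · obtain ⟨c, σ, h2, -⟩ := dec_sum (T := (S₀ : Set ℕ)) (p := 0) (q := q) C (by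
      intro y hy
      have h3 := Finset.mem_erase.1 (Finset.mem_coe.1 (hC y hy))
      rcases mem_gq.1 h3.2 with h4 | ⟨v, hv, h4⟩
      · exact absurd (h4.trans h1.symm) h3.1
      · exact Or.inr ⟨v, Finset.mem_coe.2 hv, h4⟩)
    rw [h2, h1] at hsum
    have h5 : q ∣ 1 := by
      have h6 : q ∣ q * s + 1 := ⟨σ, by omega⟩
      exact (Nat.dvd_add_right (dvd_mul_right q s)).1 h6
    have := Nat.le_of_dvd one_pos h5
    omega
  · obtain ⟨c, σ, h2, h3⟩ := dec_sum (T := ((S₀.erase u : Finset ℕ) : Set ℕ)) (p := q * s + 1)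
        (q := q) C (by
      intro y hy
      have h3 := Finset.mem_erase.1 (Finset.mem_coe.1 (hC y hy))
      rcases mem_gq.1 h3.2 with h4 | ⟨v, hv, h4⟩
      · exact Or.inl h4
      · refine Or.inr ⟨v, Finset.mem_coe.2 (Finset.mem_erase.2 ⟨?_, hv⟩), h4⟩
        rintro rfl
        exact h3.1 (h4.trans h1.symm))
    rw [h2, h1] at hsum
    have h5 : q ∣ c := by
      have h6 : q ∣ c * (q * s + 1) :=
        (Nat.dvd_add_iff_left (dvd_mul_right q σ)).2 ⟨u, hsum⟩
      have h7 : c * (q * s + 1) = q * (c * s) + c := by ring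
      rw [h7] at h6
      exact (Nat.dvd_add_right (dvd_mul_right q _)).1 h6
    obtain ⟨k, rfl⟩ := h5
    have h8 : k * (q * s + 1) + σ = u := by
      have h9 : q * (k * (q * s + 1) + σ) = q * u := by rw [← hsum]; ring
      exact Nat.eq_of_mul_eq_mul_left (by omega) h9
    rcases Nat.eq_zero_or_pos k with hk | hk
    · rw [hk, Nat.zero_mul, Nat.zero_add] at h8
      rw [h8] at h3
      exact h.h0 u hu h3
    · have h10 := h.hm u hu
      have h11 : q * s + 1 ≤ k * (q * s + 1) := Nat.le_mul_of_pos_left _ hk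
      omega

lemma Base.gap (h : Base S₀ s f m q) :
    IsGreatest {x | x ∉ AddSubmonoid.closure ((gq S₀ s q : Finset ℕ) : Set ℕ)}
      (q * f + (q - 1) * (q * s + 1)) := by
  have hq := h.q5
  have hc : ((q - 1 : ℕ) : ℤ) = (q : ℤ) - 1 := by
    push_cast [Nat.cast_sub (by omega : 1 ≤ q)]; ring
  have hin : ∀ x : ℕ, x ∈ AddSubmonoid.closure ((gq S₀ s q : Finset ℕ) : Set ℕ) ↔
      InS (gq S₀ s q) x := by
    intro x
    rw [inS_iff]
    constructor
    · intro hx
      exact ⟨x, hx, rfl⟩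
    · rintro ⟨g, hg, hgx⟩
      have : g = x := by exact_mod_cast hgx
      rwa [← this]
  constructor
  · intro hmem
    rw [hin] at hmem
    rw [h.mem_iff' (x := f) (i := (q : ℤ) - 1) (by omega) (by omega)
      (by push_cast; rw [hc])] at hmem
    exact h.not_inS_f hmem
  · intro z hz
    have hz' : ¬ InS (gq S₀ s q) (z : ℤ) := fun h1 => hz ((hin z).2 h1)
    obtain ⟨x, i, hi0, hi, e⟩ := h.rep z
    rw [h.mem_iff' hi0 hi e] at hz'
    have h1 := h.le_of_not hz'
    have h2 : (z : ℤ) ≤ ((q * f + (q - 1) * (q * s + 1) : ℕ) : ℤ) := by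
      push_cast
      rw [hc, e]
      have h3 : (q : ℤ) * x ≤ q * f := mul_le_mul_of_nonneg_left h1 (Int.natCast_nonneg _)
      have h4 : i * ((q : ℤ) * s + 1) ≤ (q - 1) * (q * s + 1) :=
        mul_le_mul_of_nonneg_right (by omega) (by positivity)
      linarith
    exact_mod_cast h2

lemma Base.least (h : Base S₀ s f m q) :
    IsLeast ((gq S₀ s q : Finset ℕ) : Set ℕ) (q * s) := by
  constructor
  · exact Finset.mem_coe.2 (mem_gq.2 (Or.inr ⟨s, h.s_mem, rfl⟩))
  · intro x hx
    rcases mem_gq.1 (Finset.mem_coe.1 hx) with h1 | ⟨u, hu, h1⟩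
    · omega
    · rw [h1]
      exact Nat.mul_le_mul_left q (h.hs.2 (Finset.mem_coe.2 hu))

lemma Base.second (h : Base S₀ s f m q) :
    IsLeast (((gq S₀ s q).erase (q * s) : Finset ℕ) : Set ℕ) (q * s + 1) := by
  have hq := h.q5
  constructor
  · exact Finset.mem_coe.2 (Finset.mem_erase.2 ⟨by omega, mem_gq.2 (Or.inl rfl)⟩)
  · intro x hx
    have hx' := Finset.mem_erase.1 (Finset.mem_coe.1 hx)
    rcases mem_gq.1 hx'.2 with h1 | ⟨u, hu, h1⟩
    · omega
    · have h2 := h.hs.2 (Finset.mem_coe.2 hu)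
      have h3 : s ≠ u := by
        rintro rfl
        exact hx'.1 h1
      have h4 : q * (s + 1) ≤ q * u := Nat.mul_le_mul_left q (by omega)
      rw [h1]
      have h5 : q * (s + 1) = q * s + q := by ring
      omega

lemma Base.hyp (h : Base S₀ s f m q) :
    Hyp2 (AddSubmonoid.closure ((gq S₀ s q : Finset ℕ) : Set ℕ)) (q * s) (q * s + 1)
      (q * f + (q - 1) * (q * s + 1)) :=
  hyp2 h.minimal h.gap h.least h.second

/-- decomposition of the multisets -/
lemma Base.dec (B : Multiset ℕ)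
    (hB : ∀ x ∈ B, x ∈ gq S₀ s q ∧ x ≠ q * s) :
    ∃ (c : ℕ) (U : Multiset ℕ), B = Multiset.replicate c (q * s + 1) + U.map (fun u => q * u) ∧
      ∀ u ∈ U, u ∈ S₀ ∧ u ≠ s := by
  induction B using Multiset.induction_on with
  | empty => exact ⟨0, 0, by simp, by simp⟩
  | cons x B ih =>
    obtain ⟨c, U, h1, h2⟩ := ih fun y hy => hB y (Multiset.mem_cons_of_mem hy)
    obtain ⟨h3, h4⟩ := hB x (Multiset.mem_cons_self x B)
    rcases mem_gq.1 h3 with h5 | ⟨u, hu, h5⟩
    · refine ⟨c + 1, U, ?_, h2⟩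
      rw [h1, h5, Multiset.replicate_succ, Multiset.cons_add]
    · refine ⟨c, u ::ₘ U, ?_, ?_⟩
      · rw [h1, h5, Multiset.map_cons, Multiset.add_cons]
      · intro v hv
        rcases Multiset.mem_cons.1 hv with h6 | h6
        · rw [h6]
          refine ⟨hu, ?_⟩
          rintro rfl
          exact h4 h5
        · exact h2 v h6

/-- excess over the base monoid -/
def ex0 (s : ℕ) (U : Multiset ℕ) : ℤ := (U.sum : ℤ) - s * U.card

lemma exc_dec (c : ℕ) (U : Multiset ℕ) :
    exc (q * s) (Multiset.replicate c (q * s + 1) + U.map (fun u => q * u))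
      = c + q * ex0 s U := by
  rw [exc_eq]
  unfold ex0
  rw [Multiset.sum_add, Multiset.sum_replicate, Multiset.sum_map_mul_left, Multiset.card_add,
    Multiset.card_replicate, Multiset.card_map]
  push_cast
  simp
  ring

lemma card_dec (c : ℕ) (U : Multiset ℕ) :
    ((Multiset.replicate c (q * s + 1) + U.map (fun u => q * u)).card : ℤ) = c + U.card := by
  rw [Multiset.card_add, Multiset.card_replicate, Multiset.card_map]
  push_cast
  ring

/-- `|U| ≤ e(U)` and `σ(U) ≤ p e(U)` -/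
lemma Base.ex0_bounds (h : Base S₀ s f m q) (U : Multiset ℕ) (hU : ∀ u ∈ U, u ∈ S₀ ∧ u ≠ s) :
    (U.card : ℤ) ≤ ex0 s U ∧ (U.sum : ℤ) ≤ (q * s + 1) * ex0 s U := by
  have hp : m < q * s + 1 := by
    have := h.hq
    omega
  induction U using Multiset.induction_on with
  | empty => simp [ex0]
  | cons u U ih =>
    obtain ⟨h1, h2⟩ := ih fun v hv => hU v (Multiset.mem_cons_of_mem hv)
    obtain ⟨h3, h4⟩ := hU u (Multiset.mem_cons_self u U)
    have h5 : s < u := lt_of_le_of_ne (h.hs.2 (Finset.mem_coe.2 h3)) (Ne.symm h4)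
    have h6 := h.hm u h3
    have e : ex0 s (u ::ₘ U) = ((u : ℤ) - s) + ex0 s U := by
      unfold ex0
      rw [Multiset.sum_cons, Multiset.card_cons]
      push_cast
      ring
    have h5' : (s : ℤ) + 1 ≤ u := by exact_mod_cast h5
    have h6' : (u : ℤ) ≤ q * s + 1 := by
      have : u ≤ q * s + 1 := by omega
      exact_mod_cast this
    rw [e, Multiset.card_cons, Multiset.sum_cons]
    constructor
    · push_cast
      linarith
    · have h7 : ((q : ℤ) * s + 1) * 1 ≤ (q * s + 1) * (u - s) :=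
        mul_le_mul_of_nonneg_left (by linarith) (by positivity)
      have h8 : ((u + U.sum : ℕ) : ℤ) = (u : ℤ) + (U.sum : ℤ) := Nat.cast_add _ _
      rw [h8]
      linarith

end base

/-! ### A bound for the Frobenius number -/

lemma exists_sub_dvd (s : ℕ) (hs : 0 < s) (l : List ℕ) (hl : s ≤ l.length) :
    ∃ l₁ l₂ l₃ : List ℕ, l = l₁ ++ l₂ ++ l₃ ∧ l₂ ≠ [] ∧ s ∣ l₂.sum := by
  have : NeZero s := ⟨hs.ne'⟩
  have hcard : Fintype.card (ZMod s) < Fintype.card (Fin (s + 1)) := by
    rw [ZMod.card, Fintype.card_fin]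
    omega
  obtain ⟨i, j, hij, h⟩ := Fintype.exists_ne_map_eq_of_card_lt
    (fun i : Fin (s + 1) => (((l.take i).sum : ℕ) : ZMod s)) hcard
  have key : ∀ i j : ℕ, i < j → j ≤ s →
      (((l.take i).sum : ℕ) : ZMod s) = (((l.take j).sum : ℕ) : ZMod s) →
      ∃ l₁ l₂ l₃ : List ℕ, l = l₁ ++ l₂ ++ l₃ ∧ l₂ ≠ [] ∧ s ∣ l₂.sum := by
    intro i j hij hj he
    have h1 : l.take j = l.take i ++ (l.take j).drop i := by
      have := (List.take_append_drop i (l.take j)).symm
      rw [List.take_take, min_eq_left hij.le] at this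
      exact this
    refine ⟨l.take i, (l.take j).drop i, l.drop j, ?_, ?_, ?_⟩
    · rw [← h1, List.take_append_drop]
    · intro h2
      have h3 : ((l.take j).drop i).length = 0 := by rw [h2]; rfl
      rw [List.length_drop, List.length_take, min_eq_left (by omega)] at h3
      omega
    · rw [h1, List.sum_append, Nat.cast_add] at he
      have h4 : ((((l.take j).drop i).sum : ℕ) : ZMod s) = 0 := by
        have h5 := he.symm
        exact (add_eq_left.1 h5)
      exact (ZMod.natCast_eq_zero_iff _ _).1 h4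
  rcases lt_or_gt_of_ne (fun h1 => hij (Fin.ext h1) : (i : ℕ) ≠ j) with h1 | h1
  · exact key i j h1 (by omega) h
  · exact key j i h1 (by omega) h.symm

/-- Brauer and Schur: `F + n₁ + n_k ≤ n₁ n_k`. -/
lemma frob_le {S₀ : Finset ℕ} {s f m : ℕ}
    (h0 : ∀ x ∈ S₀, x ∉ AddSubmonoid.closure ((S₀.erase x : Finset ℕ) : Set ℕ))
    (hs : IsLeast (S₀ : Set ℕ) s)
    (hf : IsGreatest {x | x ∉ AddSubmonoid.closure (S₀ : Set ℕ)} f)
    (hm : ∀ x ∈ S₀, x ≤ m) : f + s + m ≤ s * m := by
  have hsS : s ∈ S₀ := Finset.mem_coe.1 hs.1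
  have hs0 : 0 < s := by
    rcases Nat.eq_zero_or_pos s with h1 | h1
    · exact absurd (h1 ▸ hsS) (zero_notMem h0)
    · exact h1
  have hy : f + s ∈ AddSubmonoid.closure (S₀ : Set ℕ) := by
    by_contra hcon
    have := hf.2 hcon
    omega
  obtain ⟨C, hC, hsum⟩ := AddSubmonoid.exists_multiset_of_mem_closure hy
  have hcard : C.card < s := by
    by_contra hcon
    push Not at hcon
    obtain ⟨l, rfl⟩ : ∃ l : List ℕ, C = (l : Multiset ℕ) := ⟨C.toList, by simp⟩
    rw [Multiset.coe_card] at hcon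
    obtain ⟨l₁, l₂, l₃, h1, h2, h3⟩ := exists_sub_dvd s hs0 l hcon
    obtain ⟨k, hk⟩ := h3
    have hin : ∀ l' : List ℕ, (∀ x ∈ l', x ∈ l) → l'.sum ∈ AddSubmonoid.closure (S₀ : Set ℕ) := by
      intro l' hl'
      exact AddSubmonoid.list_sum_mem _ fun x hx =>
        AddSubmonoid.subset_closure (hC x (Multiset.mem_coe.2 (hl' x hx)))
    have hk0 : k ≠ 0 := by
      rintro rfl
      rw [Nat.mul_zero] at hk
      obtain ⟨x, hx⟩ := List.exists_mem_of_ne_nil l₂ h2
      have h4 : x ≤ l₂.sum := List.single_le_sum (by simp) x hx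
      have h5 : x ∈ S₀ := Finset.mem_coe.1 (hC x (Multiset.mem_coe.2 (by
        rw [h1]
        simp [hx])))
      have h6 : x = 0 := by omega
      rw [h6] at h5
      exact zero_notMem h0 h5
    obtain ⟨k', rfl⟩ := Nat.exists_eq_succ_of_ne_zero hk0
    apply hf.1
    have e : f = l₁.sum + s * k' + l₃.sum := by
      have h7 : l.sum = l₁.sum + l₂.sum + l₃.sum := by
        rw [h1, List.sum_append, List.sum_append]
      rw [Multiset.sum_coe, h7, hk] at hsum
      have h8 : s * k'.succ = s * k' + s := by rw [Nat.succ_eq_add_one]; ring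
      omega
    rw [e]
    refine AddSubmonoid.add_mem _ (AddSubmonoid.add_mem _ (hin l₁ ?_) ?_) (hin l₃ ?_)
    · intro x hx
      rw [h1]
      simp [hx]
    · have := AddSubmonoid.nsmul_mem _ (AddSubmonoid.subset_closure (Finset.mem_coe.2 hsS)) k'
      rwa [nsmul_eq_mul, Nat.cast_id, Nat.mul_comm] at this
    · intro x hx
      rw [h1]
      simp [hx]
  have hle : C.sum ≤ C.card * m := by
    have := Multiset.sum_le_card_nsmul C m fun x hx => hm x (Finset.mem_coe.1 (hC x hx))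
    simpa using this
  have h9 : C.card * m ≤ (s - 1) * m := Nat.mul_le_mul_right m (by omega)
  have h10 : (s - 1) * m + m = s * m := by
    obtain ⟨r, rfl⟩ : ∃ r, s = r + 1 := ⟨s - 1, by omega⟩
    simp
    ring
  omega

end Pool.Agent.Helper30.Dis
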