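import Pool.Agent.Helper30.Dis.Red1

/-!
# Reduction of the Frobenius number to the dissonance point, part 2: the computation
-/

set_option autoImplicit false

namespace Pool.Agent.Helper30.Dis

open Pool.Agent.Helper78.Dis

variable {S₀ : Finset ℕ} {s f m q : ℕ}

/-- the larger monoid -/
abbrev Gm (S₀ : Finset ℕ) (s q : ℕ) : AddSubmonoid ℕ :=
  AddSubmonoid.closure ((gq S₀ s q : Finset ℕ) : Set ℕ)

/-- the top height -/
noncomputable abbrev tp (S₀ : Finset ℕ) (s q N : ℕ) : ℤ := top (Gm S₀ s q) (q * s) N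

lemma Base.q0 (h : Base S₀ s f m q) : (0 : ℤ) < q := by
  have := h.q5
  exact_mod_cast (by omega : 0 < q)

/-- the conditions on a multiset in terms of the base monoid -/
lemma Base.pp_base (h : Base S₀ s f m q) {A x i : ℤ} {c : ℕ} {U : Multiset ℕ}
    (hU : ∀ u ∈ U, u ∈ S₀ ∧ u ≠ s) (hi0 : 0 ≤ i) (hi : i < q)
    (e : A + c + q * ex0 s U = q * x + i * (q * s + 1)) :
    PP (gq S₀ s q) (q * s) A (Multiset.replicate c (q * s + 1) + U.map (fun u => q * u)) ↔
      InS S₀ x ∧ (0 < c → i = 0 ∧ ¬ InS S₀ (x - (q * s + 1))) ∧ ∀ u ∈ U, ¬ InS S₀ (x - u) := by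
  have hq5 := h.q5
  have hex : A + exc (q * s) (Multiset.replicate c (q * s + 1) + U.map (fun u => q * u))
      = q * x + i * (q * s + 1) := by
    rw [exc_dec, ← e]
    ring
  have e1 : InS (gq S₀ s q)
      (A + exc (q * s) (Multiset.replicate c (q * s + 1) + U.map (fun u => q * u))) ↔
      InS S₀ x := h.mem_iff' hi0 hi hex
  have e2 : ∀ u : ℕ, InS (gq S₀ s q)
      (A + exc (q * s) (Multiset.replicate c (q * s + 1) + U.map (fun u => q * u))
        - ((q * u : ℕ) : ℤ)) ↔ InS S₀ (x - u) := by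
    intro u
    refine h.mem_iff' hi0 hi ?_
    rw [hex]
    push_cast
    ring
  have e3 : InS S₀ x → (¬ InS (gq S₀ s q)
      (A + exc (q * s) (Multiset.replicate c (q * s + 1) + U.map (fun u => q * u))
        - ((q * s + 1 : ℕ) : ℤ)) ↔ i = 0 ∧ ¬ InS S₀ (x - (q * s + 1))) := by
    intro hx
    rcases hi0.eq_or_lt with h0 | h0
    · have e4 := h.mem_iff' (x := x - (q * s + 1)) (i := (q : ℤ) - 1)
        (z := A + exc (q * s) (Multiset.replicate c (q * s + 1) + U.map (fun u => q * u))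
          - ((q * s + 1 : ℕ) : ℤ)) (by omega) (by omega) (by
            rw [hex, ← h0]
            push_cast
            ring)
      rw [e4]
      constructor
      · intro h5
        exact ⟨h0.symm, h5⟩
      · rintro ⟨-, h5⟩
        exact h5
    · have e4 := h.mem_iff' (x := x) (i := i - 1)
        (z := A + exc (q * s) (Multiset.replicate c (q * s + 1) + U.map (fun u => q * u))
          - ((q * s + 1 : ℕ) : ℤ)) (by omega) (by omega) (by
            rw [hex]
            push_cast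
            ring)
      rw [e4]
      constructor
      · intro h5
        exact absurd hx h5
      · rintro ⟨h5, -⟩
        omega
  unfold PP
  rw [e1]
  constructor
  · rintro ⟨-, h2, h3⟩
    refine ⟨h2, ?_, ?_⟩
    · intro hc
      rw [← e3 h2]
      exact h3 (q * s + 1) (Multiset.mem_add.2 (Or.inl (Multiset.mem_replicate.2
        ⟨hc.ne', rfl⟩)))
    · intro u hu
      rw [← e2 u]
      exact h3 (q * u) (Multiset.mem_add.2 (Or.inr (Multiset.mem_map.2 ⟨u, hu, rfl⟩)))
  · rintro ⟨h2, h3, h4⟩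
    refine ⟨?_, h2, ?_⟩
    · intro y hy
      rcases Multiset.mem_add.1 hy with h5 | h5
      · rw [Multiset.eq_of_mem_replicate h5]
        exact ⟨mem_gq.2 (Or.inl rfl), by omega⟩
      · obtain ⟨u, hu, rfl⟩ := Multiset.mem_map.1 h5
        refine ⟨mem_gq.2 (Or.inr ⟨u, (hU u hu).1, rfl⟩), ?_⟩
        intro h6
        exact (hU u hu).2 (Nat.eq_of_mul_eq_mul_left (by omega) h6)
    · intro y hy
      rcases Multiset.mem_add.1 hy with h5 | h5
      · rw [Multiset.eq_of_mem_replicate h5]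
        have hc : 0 < c := Nat.pos_of_ne_zero (Multiset.mem_replicate.1 h5).1
        exact (e3 h2).2 (h3 hc)
      · obtain ⟨u, hu, rfl⟩ := Multiset.mem_map.1 h5
        rw [e2 u]
        exact h4 u hu

lemma Base.pps_base (h : Base S₀ s f m q) {A x i : ℤ} {c : ℕ} {U : Multiset ℕ}
    (hU : ∀ u ∈ U, u ∈ S₀ ∧ u ≠ s) (hi0 : 0 ≤ i) (hi : i < q)
    (e : A + c + q * ex0 s U = q * x + i * (q * s + 1)) :
    PPs (gq S₀ s q) (q * s) A (Multiset.replicate c (q * s + 1) + U.map (fun u => q * u)) ↔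
      (InS S₀ x ∧ (0 < c → i = 0 ∧ ¬ InS S₀ (x - (q * s + 1))) ∧ ∀ u ∈ U, ¬ InS S₀ (x - u)) ∧
        ¬ InS S₀ (x - s) := by
  unfold PPs
  rw [h.pp_base hU hi0 hi e]
  have e2 : InS (gq S₀ s q)
      (A + exc (q * s) (Multiset.replicate c (q * s + 1) + U.map (fun u => q * u))
        - ((q * s : ℕ) : ℤ)) ↔ InS S₀ (x - s) := by
    refine h.mem_iff' hi0 hi ?_
    rw [exc_dec]
    push_cast
    linear_combination e
  rw [e2]

/-- the numbers `α n = top(q n) / q` -/
lemma Base.exists_alpha (h : Base S₀ s f m q) :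
    ∃ α : ℕ → ℕ, ∀ n, tp S₀ s q (q * n) = q * α n := by
  have : ∀ n, ∃ k : ℕ, tp S₀ s q (q * n) = q * k := by
    intro n
    obtain ⟨r, hr⟩ := dvd_top h.hyp (q * n)
    have h0 := top_nonneg h.hyp (q * n)
    push_cast at hr
    have e : tp S₀ s q (q * n) = q * (s * r - n) := by
      show top _ _ _ = _
      linear_combination hr
    have h1 : 0 ≤ (s : ℤ) * r - n := by
      have h2 : 0 ≤ (q : ℤ) * (s * r - n) := by
        rw [← e]
        exact h0
      exact nonneg_of_mul_nonneg_right h2 h.q0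
    refine ⟨((s : ℤ) * r - n).toNat, ?_⟩
    rw [Int.toNat_of_nonneg h1, e]
  choose α hα using this
  exact ⟨α, hα⟩

variable {α : ℕ → ℕ}

lemma Base.alpha_dvd (h : Base S₀ s f m q) (hα : ∀ n, tp S₀ s q (q * n) = q * α n) (n : ℕ) :
    (s : ℤ) ∣ α n + n := by
  obtain ⟨r, hr⟩ := dvd_top h.hyp (q * n)
  have h1 := hα n
  change top _ _ _ = _ at h1
  rw [h1] at hr
  push_cast at hr
  refine ⟨r, ?_⟩
  have h2 : (q : ℤ) * (α n + n) = q * (s * r) := by linear_combination hr
  exact mul_left_cancel₀ h.q0.ne' h2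

lemma Base.alpha_congr (h : Base S₀ s f m q) (hα : ∀ n, tp S₀ s q (q * n) = q * α n) {n n' : ℕ}
    (hn : (s : ℤ) ∣ (n : ℤ) - n') : α n = α n' := by
  have h1 : ((q * s : ℕ) : ℤ) ∣ ((q * n : ℕ) : ℤ) - ((q * n' : ℕ) : ℤ) := by
    obtain ⟨r, hr⟩ := hn
    refine ⟨r, ?_⟩
    push_cast
    linear_combination (q : ℤ) * hr
  have h2 := top_congr (Γ := Gm S₀ s q) h1
  have h3 := hα n
  have h4 := hα n'
  change top _ _ _ = _ at h3 h4
  rw [h3, h4] at h2
  have h5 : (α n : ℤ) = α n' := mul_left_cancel₀ h.q0.ne' h2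
  exact_mod_cast h5

/-- structure of a maximal pair for `q n` -/
lemma Base.top0 (h : Base S₀ s f m q) (hα : ∀ n, tp S₀ s q (q * n) = q * α n) (n : ℕ) :
    ∃ (k : ℕ) (U : Multiset ℕ) (x : ℤ), (∀ u ∈ U, u ∈ S₀ ∧ u ≠ s) ∧
      (α n : ℤ) + k + ex0 s U = x ∧ InS S₀ x ∧ ¬ InS S₀ (x - s) ∧ ∀ u ∈ U, ¬ InS S₀ (x - u) := by
  obtain ⟨-, B, hB⟩ := (top_greatest h.minimal h.hyp (q * n)).1
  obtain ⟨c, U, rfl, hU⟩ := Base.dec B hB.1.1
  obtain ⟨x, i, hi0, hi, e⟩ := h.rep (tp S₀ s q (q * n) + c + q * ex0 s U)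
  obtain ⟨⟨h1, h2, h3⟩, h4⟩ := (h.pps_base hU hi0 hi e).1 hB
  rw [hα n] at e
  have hi00 : i = 0 := by
    rcases Nat.eq_zero_or_pos c with hc | hc
    · rw [hc] at e
      have h5 : (q : ℤ) ∣ i := by
        refine ⟨α n + ex0 s U - x - i * s, ?_⟩
        push_cast at e
        linear_combination -e
      exact Int.eq_zero_of_dvd_of_nonneg_of_lt hi0 hi h5
    · exact (h2 hc).1
  rw [hi00] at e
  have h6 : (q : ℤ) ∣ c := ⟨x - α n - ex0 s U, by linear_combination e⟩
  obtain ⟨k, hk⟩ := h6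
  have hk0 : 0 ≤ k := by
    have : (0 : ℤ) ≤ q * k := by rw [← hk]; exact Int.natCast_nonneg _
    exact nonneg_of_mul_nonneg_right this h.q0
  lift k to ℕ using hk0
  refine ⟨k, U, x, hU, ?_, h1, h4, h3⟩
  rw [hk] at e
  have h7 : (q : ℤ) * (α n + k + ex0 s U) = q * x := by linear_combination e
  exact mul_left_cancel₀ h.q0.ne' h7

lemma Base.ex0_nonneg (h : Base S₀ s f m q) {U : Multiset ℕ} (hU : ∀ u ∈ U, u ∈ S₀ ∧ u ≠ s) :
    0 ≤ ex0 s U := (Int.natCast_nonneg _).trans (h.ex0_bounds U hU).1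

lemma Base.p_gt (h : Base S₀ s f m q) : (f : ℤ) + 4 * s + m + 1 ≤ q * s := by
  exact_mod_cast h.hq

lemma Base.alpha_le (h : Base S₀ s f m q) (hα : ∀ n, tp S₀ s q (q * n) = q * α n) (n : ℕ) :
    (α n : ℤ) ≤ f + s := by
  obtain ⟨k, U, x, hU, e, -, h2, -⟩ := h.top0 hα n
  have h3 := h.le_of_not h2
  have h4 := h.ex0_nonneg hU
  have h5 : (0 : ℤ) ≤ k := Int.natCast_nonneg _
  linarith

/-- lower bound for the top height, first form -/
lemma Base.top_ge (h : Base S₀ s f m q) (hα : ∀ n, tp S₀ s q (q * n) = q * α n) (n j N : ℕ)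
    (hN : (N : ℤ) = q * n + j * (q * s + 1)) : (q : ℤ) * α n - j ≤ tp S₀ s q N := by
  obtain ⟨k, U, x, hU, e, h1, h2, h3⟩ := h.top0 hα n
  apply (top_greatest h.minimal h.hyp N).2
  have hd := h.alpha_dvd hα n
  refine ⟨?_, Multiset.replicate (j + q * k) (q * s + 1) + U.map (fun u => q * u), ?_⟩
  · obtain ⟨r, hr⟩ := hd
    refine ⟨r + j, ?_⟩
    rw [hN]
    push_cast
    linear_combination (q : ℤ) * hr
  · rw [h.pps_base (x := x) (i := 0) hU le_rfl h.q0 (by
      push_cast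
      linear_combination (q : ℤ) * e)]
    refine ⟨⟨h1, fun _ => ⟨rfl, ?_⟩, h3⟩, h2⟩
    intro h4
    have h5 := h4.nonneg
    have h6 := h.le_of_not h2
    have h7 := h.p_gt
    have h8 : (0 : ℤ) ≤ s := Int.natCast_nonneg _
    have h9 : (0 : ℤ) ≤ m := Int.natCast_nonneg _
    linarith

/-- lower bound for the top height, second form -/
lemma Base.top_ge' (h : Base S₀ s f m q) (hα : ∀ n, tp S₀ s q (q * n) = q * α n) (n j N : ℕ)
    (hmin : ∀ n', α n ≤ α n') (hj0 : 0 < j) (hj : j < q)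
    (hN : (N : ℤ) = q * n + j * (q * s + 1)) :
    (q : ℤ) * α n + (q - j) * (q * s + 1) ≤ tp S₀ s q N := by
  obtain ⟨k, U, x, hU, e, h1, h2, h3⟩ := h.top0 hα (n + 1)
  have hd := h.alpha_dvd hα (n + 1)
  have hk : k = 0 := by
    by_contra hk
    obtain ⟨k', rfl⟩ := Nat.exists_eq_succ_of_ne_zero hk
    have h4 : (q : ℤ) * (α (n + 1) + 1) ≤ tp S₀ s q (q * n) := by
      apply (top_greatest h.minimal h.hyp (q * n)).2
      refine ⟨?_, Multiset.replicate (q * k') (q * s + 1) + U.map (fun u => q * u), ?_⟩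
      · obtain ⟨r, hr⟩ := hd
        refine ⟨r, ?_⟩
        push_cast at hr ⊢
        linear_combination (q : ℤ) * hr
      · rw [h.pps_base (x := x) (i := 0) hU le_rfl h.q0 (by
          push_cast at e ⊢
          linear_combination (q : ℤ) * e)]
        refine ⟨⟨h1, fun _ => ⟨rfl, ?_⟩, h3⟩, h2⟩
        intro h4
        have h5 := h4.nonneg
        have h6 := h.le_of_not h2
        have h7 := h.p_gt
        have h8 : (0 : ℤ) ≤ s := Int.natCast_nonneg _
        have h9 : (0 : ℤ) ≤ m := Int.natCast_nonneg _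
        linarith
    rw [hα n] at h4
    have h5 : (α (n + 1) : ℤ) + 1 ≤ α n := le_of_mul_le_mul_left h4 h.q0
    have h6 : (α n : ℤ) ≤ α (n + 1) := by exact_mod_cast hmin (n + 1)
    linarith
  have h6 : (α n : ℤ) ≤ α (n + 1) := by exact_mod_cast hmin (n + 1)
  have h7 : (q : ℤ) * α n ≤ q * α (n + 1) := mul_le_mul_of_nonneg_left h6 h.q0.le
  have h8 : (q : ℤ) * α (n + 1) + (q - j) * (q * s + 1) ≤ tp S₀ s q N := by
    apply (top_greatest h.minimal h.hyp N).2
    refine ⟨?_, Multiset.replicate 0 (q * s + 1) + U.map (fun u => q * u), ?_⟩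
    · obtain ⟨r, hr⟩ := hd
      refine ⟨r + q, ?_⟩
      rw [hN]
      push_cast at hr ⊢
      linear_combination (q : ℤ) * hr
    · rw [h.pps_base (x := x) (i := (q : ℤ) - j) hU (by omega) (by omega) (by
        rw [hk] at e
        push_cast at e ⊢
        linear_combination (q : ℤ) * e)]
      exact ⟨⟨h1, fun h9 => absurd h9 (lt_irrefl 0), h3⟩, h2⟩
  linarith

/-- a maximal pair of bounded size -/
lemma Base.top_small (h : Base S₀ s f m q) (N : ℕ) :
    ∃ B, PPs (gq S₀ s q) (q * s) (tp S₀ s q N) B ∧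
      (B.card : ℤ) ≤ q * (f + s) + (f + s + (q * s + 1)) := by
  obtain ⟨-, B, hB⟩ := (top_greatest h.minimal h.hyp N).1
  obtain ⟨c, U, rfl, hU⟩ := Base.dec B hB.1.1
  obtain ⟨x, i, hi0, hi, e⟩ := h.rep (tp S₀ s q N + c + q * ex0 s U)
  obtain ⟨⟨-, h2, -⟩, h4⟩ := (h.pps_base hU hi0 hi e).1 hB
  refine ⟨_, hB, ?_⟩
  rw [card_dec]
  have h5 := h.le_of_not h4
  have h6 := (h.ex0_bounds U hU).1
  have h7 : 0 ≤ tp S₀ s q N := top_nonneg h.hyp N
  have hq := h.q0
  have h8 : (q : ℤ) * x ≤ q * (f + s) := mul_le_mul_of_nonneg_left (by linarith) hq.le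
  have h9 := h.ex0_nonneg hU
  have h10 : (0 : ℤ) ≤ s := Int.natCast_nonneg _
  have h11 : (0 : ℤ) ≤ f := Int.natCast_nonneg _
  have h12 : (0 : ℤ) ≤ q * s := mul_nonneg hq.le h10
  have h13 : (0 : ℤ) ≤ q * (f + s) := mul_nonneg hq.le (by linarith)
  rcases Nat.eq_zero_or_pos c with hc | hc
  · rw [hc] at e ⊢
    push_cast at e ⊢
    have h14 : i * ((q : ℤ) * s + 1) ≤ q * (q * s + 1) :=
      mul_le_mul_of_nonneg_right hi.le (by linarith)
    have h15 : (q : ℤ) * ex0 s U ≤ q * (f + s + (q * s + 1)) := by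
      have e2 : (q : ℤ) * (f + s + (q * s + 1)) = q * (f + s) + q * (q * s + 1) := by ring
      rw [e2]
      linarith
    have h16 := le_of_mul_le_mul_left h15 hq
    linarith
  · rw [(h2 hc).1] at e
    have h14 : (1 : ℤ) * ex0 s U ≤ q * ex0 s U :=
      mul_le_mul_of_nonneg_right (by linarith) h9
    linarith

/-- the dissonance point of the larger monoid, `b` the least value of `α` -/
def Dq (s f q : ℕ) (b : ℤ) : ℤ :=
  q * ((q * s + 1) * ((q * s + 1) + f - s - b - 1) - f)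

lemma Dq_eq (s f q : ℕ) (b : ℤ) : Dq s f q b
    = q * ((q * s : ℤ) * (q * s + 1 + f) - (q * s + 1) * (s + b)) := by
  unfold Dq
  ring

lemma Base.Dq_ge (h : Base S₀ s f m q) {b : ℤ} (hb : b ≤ f + s) :
    (q : ℤ) * ((q * s + 1) * (q * s - 2 * s) - f) ≤ Dq s f q b := by
  unfold Dq
  have hq := h.q0
  have h10 : (0 : ℤ) ≤ s := Int.natCast_nonneg _
  refine mul_le_mul_of_nonneg_left ?_ hq.le
  have h12 : (0 : ℤ) ≤ q * s := mul_nonneg hq.le h10
  have h1 : ((q : ℤ) * s + 1) * (q * s - 2 * s)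
      ≤ (q * s + 1) * ((q * s + 1) + f - s - b - 1) :=
    mul_le_mul_of_nonneg_left (by linarith) (by linarith)
  linarith

/-- numerical estimates -/
lemma Base.num (h : Base S₀ s f m q) :
    (q * s : ℤ) * (q * (f + s) + (f + s + q * s)) ≤ q * ((q * s + 1) * (q * s - 2 * s) - f) ∧
    (q * s : ℤ) * (f + m + q * s) ≤ q * ((q * s + 1) * (q * s - 2 * s) - f) := by
  have hq := h.q0
  have hs0 : (0 : ℤ) < s := by exact_mod_cast h.s_pos
  have hf0 : (0 : ℤ) < f := by exact_mod_cast h.f_pos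
  have hp := h.p_gt
  have hsm : (s : ℤ) ≤ m := by exact_mod_cast h.sm
  obtain ⟨a, ha⟩ : ∃ a : ℤ, a = q * s := ⟨_, rfl⟩
  rw [← ha] at hp ⊢
  have ha0 : 0 < a := by rw [ha]; positivity
  have hqm : a ≤ q * m := by
    rw [ha]
    exact mul_le_mul_of_nonneg_left hsm hq.le
  have h1 : (q : ℤ) * a * (f + 2 * s + m + 2) ≤ q * a * (a + 1 - 2 * s) :=
    mul_le_mul_of_nonneg_left (by linarith) (by positivity)
  have h2 : (q : ℤ) * (2 * s + f) ≤ q * (2 * a) := mul_le_mul_of_nonneg_left (by linarith) hq.le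
  have h3 : a * (f + s) ≤ a * (q * m) := mul_le_mul_of_nonneg_left (by linarith) ha0.le
  have h4 : a * a = q * a * s := by rw [ha]; ring
  have h5 : a * (f + m) ≤ q * (a * (f + m)) := by
    have h6 : (1 : ℤ) ≤ q := by linarith
    have h7 : 0 ≤ a * (f + m) := by positivity
    have h8 := mul_le_mul_of_nonneg_right h6 h7
    linarith
  constructor
  · nlinarith
  · have h9 : (0 : ℤ) ≤ q * a * s := by positivity
    nlinarith

/-- **Upper bound.** -/
lemma Base.upper (h : Base S₀ s f m q) (hα : ∀ n, tp S₀ s q (q * n) = q * α n) (n₀ : ℕ)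
    (hmin : ∀ n', α n₀ ≤ α n') {N : ℕ} (hN : N ∈ Gm S₀ s q) {t : ℤ}
    (ht : t ∈ TT (gq S₀ s q) (q * s) (tp S₀ s q N)) :
    ((q * s : ℕ) : ℤ) * t - tp S₀ s q N ≤ Dq s f q (α n₀) := by
  have hq := h.q0
  have hq5 := h.q5
  have hs0 : (0 : ℤ) < s := by exact_mod_cast h.s_pos
  have hf0 : (0 : ℤ) < f := by exact_mod_cast h.f_pos
  have hm0 : (0 : ℤ) ≤ m := Int.natCast_nonneg _
  have ha0 : (0 : ℤ) < q * s := by positivity
  have hD := h.Dq_ge (h.alpha_le hα n₀)
  obtain ⟨num1, num2⟩ := h.num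
  have htp0 : 0 ≤ tp S₀ s q N := top_nonneg h.hyp N
  push_cast
  rcases ht with ⟨B, hB, hBt⟩ | ⟨h0, h1, -⟩
  · -- first case
    obtain ⟨c, U, rfl, hU⟩ := Base.dec B hB.1
    obtain ⟨x, i, hi0, hi, e⟩ := h.rep ((tp S₀ s q N + ((q * s : ℕ) : ℤ)) + c + q * ex0 s U)
    obtain ⟨k1, k2, k3⟩ := (h.pp_base hU hi0 hi e).1 hB
    obtain ⟨b1, b2⟩ := h.ex0_bounds U hU
    rw [card_dec] at hBt
    push_cast at e
    rcases Nat.eq_zero_or_pos c with hc | hc
    · rw [hc] at e hBt
      push_cast at e hBt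
      rcases Multiset.empty_or_exists_mem U with hU0 | ⟨u, hu⟩
      · rw [hU0] at hBt
        simp only [Multiset.card_zero, Nat.cast_zero] at hBt
        rw [hBt]
        have h5 : (0 : ℤ) ≤ (q * s : ℤ) * (f + m + q * s) := by positivity
        linarith
      · have h5 := h.le_of_not (k3 u hu)
        have h6 : (u : ℤ) ≤ m := by exact_mod_cast h.hm u (hU u hu).1
        have h7 : (q : ℤ) * x ≤ q * (f + m) := mul_le_mul_of_nonneg_left (by linarith) hq.le
        have h8 : i * ((q : ℤ) * s + 1) ≤ q * (q * s + 1) :=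
          mul_le_mul_of_nonneg_right hi.le (by linarith)
        have h9 : (q : ℤ) * ex0 s U ≤ q * (f + m + (q * s + 1)) := by
          have e2 : (q : ℤ) * (f + m + (q * s + 1)) = q * (f + m) + q * (q * s + 1) := by ring
          rw [e2]
          linarith
        have h10 := le_of_mul_le_mul_left h9 hq
        have h11 : (q * s : ℤ) * t ≤ (q * s) * (f + m + q * s) :=
          mul_le_mul_of_nonneg_left (by rw [hBt]; linarith) ha0.le
        linarith
    · obtain ⟨hi00, k4⟩ := k2 hc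
      rw [hi00] at e
      have h5 := h.le_of_not k4
      -- representation of `N`
      obtain ⟨n, j, hj0, hj, eN⟩ := h.rep (N : ℤ)
      have hn : InS S₀ n := by
        rw [← h.mem_iff' hj0 hj eN, inS_iff]
        exact ⟨N, hN, rfl⟩
      have hn0 := hn.nonneg
      lift n to ℕ using hn0
      lift j to ℕ using hj0
      obtain ⟨r, hr⟩ := dvd_top h.hyp N
      change tp S₀ s q N + (N : ℤ) = _ at hr
      push_cast at hr
      have hck : (q : ℤ) ∣ (c : ℤ) - j := by
        refine ⟨x - s - ex0 s U - s * r + n + j * s, ?_⟩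
        rw [eN] at hr
        linear_combination e - hr
      obtain ⟨k, hk⟩ := hck
      have hk0 : 0 ≤ k := by
        by_contra hcon
        push Not at hcon
        have h6 : (q : ℤ) * k ≤ q * (-1) := mul_le_mul_of_nonneg_left (by omega) hq.le
        have h7 : (0 : ℤ) < c := by exact_mod_cast hc
        have h8 : (j : ℤ) < q := hj
        linarith
      -- value
      have hval : (q * s : ℤ) * t - tp S₀ s q N
          = q * ((q * s + 1) * k + U.sum - x) + j * (q * s + 1) := by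
        rw [hBt]
        have e3 : (U.sum : ℤ) = ex0 s U + s * U.card := by
          unfold ex0
          ring
        rw [e3]
        have e4 : (c : ℤ) = j + q * k := by linarith
        rw [e4] at e ⊢
        linear_combination -e
      rw [hval, Dq_eq]
      have hjq : (j : ℤ) < q := hj
      have ht1 := h.top_ge hα n j N eN
      have hαn : (α n₀ : ℤ) ≤ α n := by exact_mod_cast hmin n
      have hx : ((q : ℤ) * s) * x ≤ (q * s) * (q * s + 1 + f) :=
        mul_le_mul_of_nonneg_left (by linarith) ha0.le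
      have hkle : k ≤ x - s - ex0 s U - α n := by
        have h6 : (q : ℤ) * k ≤ q * (x - s - ex0 s U - α n) := by linarith
        exact le_of_mul_le_mul_left h6 hq
      have hfin : ∀ b' : ℤ, k ≤ x - s - ex0 s U - b' →
          (q : ℤ) * ((q * s + 1) * k + U.sum - x)
            ≤ q * ((q * s : ℤ) * (q * s + 1 + f) - (q * s + 1) * (s + b')) := by
        intro b' hb'
        refine mul_le_mul_of_nonneg_left ?_ hq.le
        have h6 : ((q : ℤ) * s + 1) * k ≤ (q * s + 1) * (x - s - ex0 s U - b') :=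
          mul_le_mul_of_nonneg_left hb' (by linarith)
        linarith
      rcases Nat.eq_zero_or_pos j with hj0 | hj0
      · have h6 := hfin (α n₀) (by linarith)
        rw [hj0, Nat.cast_zero, zero_mul, add_zero]
        exact h6
      · have hk2 : k ≤ x - s - ex0 s U - (α n₀ + 1) := by
          rcases lt_or_ge (α n₀) (α n) with hlt | hge
          · have h6 : (α n₀ : ℤ) + 1 ≤ α n := by exact_mod_cast hlt
            linarith
          · have heq : α n = α n₀ := le_antisymm hge (hmin n)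
            have h6 := h.top_ge' hα n j N (fun n' => heq ▸ hmin n') hj0 (by exact_mod_cast hjq) eN
            rw [heq] at h6
            have h7 : (1 : ℤ) * (q * s + 1) ≤ (q - j) * (q * s + 1) :=
              mul_le_mul_of_nonneg_right (by linarith) (by linarith)
            have h8 : (q : ℤ) * 1 ≤ q * s := mul_le_mul_of_nonneg_left (by linarith) hq.le
            have h9 : (q : ℤ) * k ≤ q * (x - s - ex0 s U - (α n₀ + 1)) := by
              have h10 : (0 : ℤ) ≤ j := Int.natCast_nonneg _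
              linarith
            exact le_of_mul_le_mul_left h9 hq
        have h6 := hfin (α n₀ + 1) hk2
        have h7 : (j : ℤ) * (q * s + 1) ≤ q * (q * s + 1) :=
          mul_le_mul_of_nonneg_right hjq.le (by linarith)
        linarith
  · obtain ⟨B, hB, hc⟩ := h.top_small N
    have h2 := h1 B hB
    have h3 : (q * s : ℤ) * t ≤ (q * s) * (q * (f + s) + (f + s + q * s)) :=
      mul_le_mul_of_nonneg_left (by linarith) ha0.le
    linarith

/-- **Lower bound.** -/
lemma Base.lower (h : Base S₀ s f m q) (hα : ∀ n, tp S₀ s q (q * n) = q * α n) (n₀ : ℕ)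
    (hmin : ∀ n', α n₀ ≤ α n') :
    ∃ n : ℕ, ((q * n : ℕ) : ℤ) = Dq s f q (α n₀) ∧ q * n ∈ Gm S₀ s q ∧
      omega (Gm S₀ s q) (q * n) ≠ lin (Gm S₀ s q) (q * s) (q * n) := by
  have hq := h.q0
  have hq5 := h.q5
  have hs0 : (0 : ℤ) < s := by exact_mod_cast h.s_pos
  have hf0 : (0 : ℤ) < f := by exact_mod_cast h.f_pos
  have hm0 : (0 : ℤ) ≤ m := Int.natCast_nonneg _
  have ha0 : (0 : ℤ) < q * s := by positivity
  have hp := h.p_gt
  have hαle := h.alpha_le hα n₀
  -- `k = p + f - s - α`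
  obtain ⟨k, hk⟩ : ∃ k : ℕ, (k : ℤ) = (q * s + 1) + f - s - α n₀ :=
    ⟨_, Int.toNat_of_nonneg (by linarith)⟩
  have hK : (q : ℤ) * s - 2 * s + 1 ≤ k := by linarith
  have hbig : (f : ℤ) < (q * s + 1) * k - (q * s + 1 + f) := by
    have h1 : ((q : ℤ) * s + 1) * 3 ≤ (q * s + 1) * k :=
      mul_le_mul_of_nonneg_left (by linarith) (by linarith)
    linarith
  obtain ⟨n, hn⟩ : ∃ n : ℕ, (n : ℤ) = (q * s + 1) * k - (q * s + 1 + f) :=
    ⟨_, Int.toNat_of_nonneg (by linarith)⟩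
  have hD : ((q * n : ℕ) : ℤ) = Dq s f q (α n₀) := by
    unfold Dq
    push_cast
    rw [hn, hk]
    ring
  have hnS : InS S₀ n := h.inS_of_lt (by rw [hn]; exact hbig)
  have hmem : q * n ∈ Gm S₀ s q := by
    have h1 : InS (gq S₀ s q) ((q * n : ℕ) : ℤ) := by
      rw [h.mem_iff' (x := n) (i := 0) le_rfl hq (by push_cast; ring)]
      exact hnS
    rw [inS_iff] at h1
    obtain ⟨g, hg, hgn⟩ := h1
    have : g = q * n := by exact_mod_cast hgn
    rwa [← this]
  have hαn : α n = α n₀ := by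
    apply h.alpha_congr hα
    obtain ⟨r, hr⟩ := h.alpha_dvd hα n₀
    refine ⟨q * k - 1 - r, ?_⟩
    rw [hn]
    linear_combination hk - hr
  refine ⟨n, hD, hmem, ?_⟩
  have hα' := hα n
  rw [hαn] at hα'
  refine dis_of_tt h.minimal h.hyp (t := (q : ℤ) * k - 1) ?_ ?_
  · left
    refine ⟨Multiset.replicate (q * k) (q * s + 1) + (0 : Multiset ℕ).map (fun u => q * u), ?_, ?_⟩
    · change PP _ _ (tp S₀ s q (q * n) + _) _
      rw [h.pp_base (x := (q * s + 1) + f) (i := 0) (by simp) le_rfl hq (by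
        rw [hα']
        unfold ex0
        rw [Multiset.sum_zero, Multiset.card_zero]
        push_cast
        linear_combination (q : ℤ) * hk)]
      refine ⟨h.inS_of_lt (by linarith), fun _ => ⟨rfl, ?_⟩, by simp⟩
      have e : ((q : ℤ) * s + 1) + f - (q * s + 1) = f := by ring
      rw [e]
      exact h.not_inS_f
    · rw [card_dec]
      push_cast
      simp
  · change _ = _ - tp S₀ s q (q * n)
    rw [hα']
    push_cast
    rw [hn]
    linear_combination (q : ℤ) * hk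

/-- The dissonance point of the larger monoid. -/
theorem Base.isDis (h : Base S₀ s f m q) :
    ∃ (n : ℕ) (b : ℤ), 0 ≤ b ∧ b ≤ f + s ∧ ((q * n : ℕ) : ℤ) = Dq s f q b ∧
      IsDis (Gm S₀ s q) (q * n) ∧ ∀ D', IsDis (Gm S₀ s q) D' → D' = q * n := by
  obtain ⟨α, hα⟩ := h.exists_alpha
  obtain ⟨n₀, hmin⟩ : ∃ n₀, ∀ n', α n₀ ≤ α n' := by
    classical
    have hex : ∃ v, ∃ n, α n = v := ⟨_, 0, rfl⟩
    obtain ⟨n₀, hn₀⟩ := Nat.find_spec hex
    exact ⟨n₀, fun n' => by rw [hn₀]; exact Nat.find_min' hex ⟨n', rfl⟩⟩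
  obtain ⟨n, h1, h2, h3⟩ := h.lower hα n₀ hmin
  have hH := h.hyp
  have hgr : IsGreatest {N | N ∈ Gm S₀ s q ∧ omega (Gm S₀ s q) N ≠ lin (Gm S₀ s q) (q * s) N}
      (q * n) := by
    refine ⟨⟨h2, h3⟩, ?_⟩
    rintro N ⟨h4, h5⟩
    obtain ⟨t, ht, hN⟩ := tt_of_dis h.minimal hH h5
    have h6 := h.upper hα n₀ hmin h4 ht
    rw [← h1] at h6
    have h7 : (N : ℤ) ≤ ((q * n : ℕ) : ℤ) := hN.trans h6
    exact_mod_cast h7
  refine ⟨n, α n₀, Int.natCast_nonneg _, h.alpha_le hα n₀, h1, ?_, ?_⟩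
  · exact ⟨lin (Gm S₀ s q) (q * s), lin_quasilinear hH, ⟨_, fun N hN =>
      omega_eq_lin hH (Nat.lt_of_succ_le hN)⟩, hgr⟩
  · rintro D' ⟨g, hg, ⟨N₀, hN₀⟩, hD'⟩
    have hfl : g = lin (Gm S₀ s q) (q * s) := by
      apply IsQuasilinear.unique hg (lin_quasilinear hH) (n₀ := max N₀
        (q * s * ((q * f + (q - 1) * (q * s + 1)) / (q * s + 1 - q * s)) + 1))
      intro N hN
      rw [← hN₀ N (le_of_max_le_left hN),
        omega_eq_lin hH (Nat.lt_of_succ_le (le_of_max_le_right hN))]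
    rw [hfl] at hD'
    exact hD'.unique hgr

end Pool.Agent.Helper30.Dis
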